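import Pool.Agent.Q169.ZD.Defs

/-!
# Acyclic intersections of mirrors
-/

set_option autoImplicit false

namespace Pool.Agent.U838.DV

open Pool.Agent.Q169.ZD

noncomputable section

variable {B : Type} {H : Type} [Group H] [MulAction H B]

/-- The cellular boundary map of `Y`. -/
def bdY (Y : Mirrored H B) (i : ℕ) (z : Y.E (i + 1) →₀ ℤ) : Y.E i →₀ ℤ :=
  z.sum fun e n => n • Y.bd i e

/-- The intersection `Y_T` of the mirrors `Y_b`, `b ∈ T` (where `Y_∅ = Y`), is nonempty and acyclic: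
the augmented chain complex of the cells `e` with `T ⊆ mir e` is exact. -/
structure FaceAcyclic (Y : Mirrored H B) (T : Set B) : Prop where
  nonempty : ∃ e : Y.E 0, T ⊆ Y.mir 0 e
  exact_zero : ∀ x : Y.E 0 →₀ ℤ, (∀ e, x e ≠ 0 → T ⊆ Y.mir 0 e) →
    (x.sum (fun _ r => r) = 0 ↔
      ∃ y : Y.E 1 →₀ ℤ, (∀ e, y e ≠ 0 → T ⊆ Y.mir 1 e) ∧ bdY Y 0 y = x)
  exact_succ : ∀ (i : ℕ) (x : Y.E (i + 1) →₀ ℤ), (∀ e, x e ≠ 0 → T ⊆ Y.mir (i + 1) e) →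
    (bdY Y i x = 0 ↔
      ∃ y : Y.E (i + 2) →₀ ℤ, (∀ e, y e ≠ 0 → T ⊆ Y.mir (i + 2) e) ∧ bdY Y (i + 1) y = x)

end

end Pool.Agent.U838.DV
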