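import Pool.Agent.U838.DV.Filt
import Pool.Agent.U838.DV.Defs
import Pool.Agent.U838.ZD.CellJob

/-!
# `𝒰(W, Y)` is acyclic if the intersections `Y_T` of mirrors with `W_T` finite are acyclic
-/

set_option autoImplicit false

namespace Pool.Agent.U838.DV

open Pool.Agent.U838.RT
open Pool.Agent.Q169.ZD
open Pool.Agent.U838.ZD (cell_eq_iff cell_surj bdCell_cell)

noncomputable section

open scoped Classical

section

variable {B : Type} {M : CoxeterMatrix B} {W : Type} [Group W] {cs : CoxeterSystem M W}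
  {F U : ℕ → Type} {bd : ∀ i, F (i + 1) → (F i →₀ ℤ)}
    {bdU : ∀ i, U (i + 1) → (U i →₀ ℤ)} {mir : ∀ i, F i → Set B}
    {κ : ∀ i, F i → W → U i} (h : Cov cs bd bdU mir κ)

include h

theorem Cov.dd (hdd : DD bd) (i : ℕ) (y : U (i + 2) →₀ ℤ) :
    bH bdU i (bH bdU (i + 1) y) = 0 := by
  induction y using Finsupp.induction_linear with
  | zero => rw [map_zero, map_zero]
  | add x y hx hy => rw [map_add, map_add, hx, hy, add_zero]
  | single x n =>
    obtain ⟨e, w, rfl⟩ := h.surj (i + 2) x
    have h1 : (Finsupp.single (κ (i + 2) e w) n : U (i + 2) →₀ ℤ) =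
        (Finsupp.single e n).mapDomain (fun f => κ (i + 2) f w) := by
      rw [Finsupp.mapDomain_single]
    have h2 : bH bd i (bH bd (i + 1) (Finsupp.single e n)) = 0 :=
      cyc_bd bd hdd (i + 1) (Finsupp.single e n)
    rw [h1, h.bd_map, h.bd_map, h2, Finsupp.mapDomain_zero]

end

variable {B : Type} {M : CoxeterMatrix B} {W : Type} [Group W] {cs : CoxeterSystem M W}
  {H : Type} [Group H] [MulAction H B] {Y : Mirrored H B}

/-- the cells of `Y`, the empty cell -/
abbrev FS (Y : Mirrored H B) : ℕ → Type := Sh Empty (Sh Unit Y.E)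

/-- the boundary -/
abbrev bdF (Y : Mirrored H B) : ∀ i, FS Y (i + 1) → (FS Y i →₀ ℤ) := bdS Empty (bdS Unit Y.bd)

/-- the mirrors -/
abbrev miF (Y : Mirrored H B) : ∀ i, FS Y i → Set B := mirS Empty (mirS Unit Y.mir)

variable (cs) in
/-- the cells of `𝒰(W, Y)`, the empty cell -/
abbrev US (Y : Mirrored H B) : ℕ → Type := Sh Empty (Sh Unit (Cell cs Y))

variable (cs) in
/-- the boundary -/
abbrev bdV (Y : Mirrored H B) : ∀ i, US cs Y (i + 1) → (US cs Y i →₀ ℤ) :=
  bdS Empty (bdS Unit (bdCell cs Y))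

variable (cs) in
/-- the cell `w e` -/
def kaS (Y : Mirrored H B) : ∀ i, FS Y i → W → US cs Y i
  | 0 => fun e _ => e
  | 1 => fun e _ => e
  | i + 2 => fun e w => cell cs Y i e w

theorem cov : Cov cs (bdF Y) (bdV cs Y) (miF Y) (kaS cs Y) where
  surj i := by
    match i with
    | 0 => exact fun x => (x : Empty).elim
    | 1 => exact fun x => ⟨x, 1, rfl⟩
    | i + 2 => exact fun x => cell_surj i x
  eq i := by
    match i with
    | 0 => exact fun e => (e : Empty).elim
    | 1 =>
      intro e e' w w'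
      constructor
      · intro h1
        refine ⟨h1, ?_⟩
        change _ ∈ par cs Set.univ
        rw [par_univ]
        trivial
      · exact fun h1 => h1.1
    | i + 2 => exact fun e e' w w' => cell_eq_iff i e e' w w'
  bd i := by
    match i with
    | 0 => exact fun e w => Finsupp.ext fun f => (f : Empty).elim
    | 1 =>
      intro e w
      change oneP Unit = Finsupp.mapDomain (fun f : Unit => f) (oneP Unit)
      exact Finsupp.mapDomain_id.symm
    | i + 2 => exact fun e w => bdCell_cell i e w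

theorem bH_augF (x : Y.E 0 →₀ ℤ) :
    bH (bdS Unit Y.bd) 0 x = (x.sum fun _ n => n) • oneP Unit := by
  change (x.sum fun e n => n • oneP Unit) = _
  unfold Finsupp.sum
  rw [Finset.sum_smul]

theorem bH_augV (x : Cell cs Y 0 →₀ ℤ) :
    bH (bdS Unit (bdCell cs Y)) 0 x = (x.sum fun _ n => n) • oneP Unit := by
  change (x.sum fun e n => n • oneP Unit) = _
  unfold Finsupp.sum
  rw [Finset.sum_smul]

theorem oneP_apply : oneP Unit () = 1 := rfl

theorem smul_oneP (n : ℤ) : n • oneP Unit = 0 ↔ n = 0 := by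
  constructor
  · intro h
    have h1 := DFunLike.congr_fun h ()
    change n • (oneP Unit) () = 0 at h1
    rw [oneP_apply, smul_eq_mul, mul_one] at h1
    exact h1
  · rintro rfl
    exact zero_smul ℤ _

theorem ddF (h : FaceAcyclic Y ∅) : DD (bdF Y) := by
  refine dd_shift_empty (dd_shift_unit ?_ ?_)
  · intro i e
    have h1 : bdY Y (i + 1) (Finsupp.single e 1) = Y.bd (i + 1) e := by
      change bL Y.bd (i + 1) _ = _
      rw [bL_single, one_smul]
    exact (h.exact_succ i (Y.bd (i + 1) e) (fun _ _ => Set.empty_subset _)).2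
      ⟨Finsupp.single e 1, fun _ _ => Set.empty_subset _, h1⟩
  · intro e
    have h1 : bdY Y 0 (Finsupp.single e 1) = Y.bd 0 e := by
      change bL Y.bd 0 _ = _
      rw [bL_single, one_smul]
    exact (h.exact_zero (Y.bd 0 e) (fun _ _ => Set.empty_subset _)).2
      ⟨Finsupp.single e 1, fun _ _ => Set.empty_subset _, h1⟩

theorem rexF {T : Set B} (h : FaceAcyclic Y T) :
    REx (bdF Y) (fun i => {e | T ⊆ miF Y i e}) := by
  intro i z hz hz0
  match i, z, hz, hz0 with
  | 0, z, hz, hz0 =>
    obtain ⟨e, he⟩ := h.nonempty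
    refine ⟨(Finsupp.single e ((z : Unit →₀ ℤ) ()) : Y.E 0 →₀ ℤ), ?_, ?_⟩
    · intro f hf
      have h1 : (f : Y.E 0) = e := by
        by_contra h2
        exact hf (Finsupp.single_eq_of_ne h2)
      change T ⊆ Y.mir 0 f
      rw [h1]
      exact he
    · intro f _
      have h1 := bH_augF (Finsupp.single e ((z : Unit →₀ ℤ) ()) : Y.E 0 →₀ ℤ)
      have h2 : ((Finsupp.single e ((z : Unit →₀ ℤ) ()) : Y.E 0 →₀ ℤ).sum fun _ n => n) =
        (z : Unit →₀ ℤ) () := Finsupp.sum_single_index rfl
      rw [h2] at h1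
      have h3 := DFunLike.congr_fun h1 ()
      refine h3.trans ?_
      change (z : Unit →₀ ℤ) () • (oneP Unit) () = _
      rw [oneP_apply, smul_eq_mul, mul_one]
      rfl
  | 1, z, hz, hz0 =>
    have h1 := bH_augF (z : Y.E 0 →₀ ℤ)
    have h2 : ((z : Y.E 0 →₀ ℤ).sum fun _ n => n) = 0 := by
      refine (smul_oneP _).1 (h1.symm.trans ?_)
      refine Finsupp.ext fun u => ?_
      exact hz0 u (Set.subset_univ _)
    obtain ⟨y, hy, hy1⟩ := (h.exact_zero z hz).1 h2
    exact ⟨y, hy, fun f _ => DFunLike.congr_fun hy1 f⟩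
  | i + 2, z, hz, hz0 =>
    have h2 : bdY Y i (z : Y.E (i + 1) →₀ ℤ) = 0 := by
      refine Finsupp.ext fun f => ?_
      by_cases hf : T ⊆ Y.mir i f
      · exact hz0 f hf
      · refine bH_zero_of Y.bd i z f fun e he => ?_
        by_contra h3
        exact hf ((hz e he).trans (Y.mir_face i e f h3))
    obtain ⟨y, hy, hy1⟩ := (h.exact_succ i z hz).1 h2
    exact ⟨y, hy, fun f _ => DFunLike.congr_fun hy1 f⟩

theorem faceF (i : ℕ) (e : FS Y (i + 1)) (f : FS Y i) (hef : bdF Y i e f ≠ 0) :
    miF Y (i + 1) e ⊆ miF Y i f := by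
  match i, e, f, hef with
  | 0, _, f, _ => exact (f : Empty).elim
  | 1, _, _, _ => exact Set.subset_univ _
  | i + 2, e, f, hef => exact Y.mir_face i e f hef

/-- **`𝒰(W, Y)` is acyclic** -/
theorem isAcyclic (h : ∀ T : Set B, Finite (par cs T) → FaceAcyclic Y T) : IsAcyclic cs Y := by
  have hcov : Cov cs (bdF Y) (bdV cs Y) (miF Y) (kaS cs Y) := cov
  have hempty : FaceAcyclic Y (∅ : Set B) := by
    refine h ∅ ?_
    have h2 : par cs (∅ : Set B) = ⊥ := by
      change Subgroup.closure (cs.simple '' ∅) = ⊥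
      rw [Set.image_empty, Subgroup.closure_empty]
    rw [h2]
    infer_instance
  have hdd := ddF hempty
  have hmono : ∀ s t : Set B, s ⊆ t → Finite (par cs t) → Finite (par cs s) := by
    intro s t hst ht
    have h1 : par cs s ≤ par cs t := Subgroup.closure_mono (Set.image_mono hst)
    exact Finite.of_injective _ (Subgroup.inclusion_injective h1)
  have hrel : ∀ w : W, REx (bdF Y) (SM (miF Y) ∅ (De cs w)) := by
    intro w
    have h1 := rex_SM (bd := bdF Y) (mir := miF Y) faceF hdd (inferInstanceAs (IsEmpty Empty))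
      (fun s => Finite (par cs s)) hmono (fun I hI => rexF (h I hI)) (finite_De (cs := cs) w).toFinset ∅
    rw [Set.Finite.coe_toFinset, Set.empty_union] at h1
    exact h1 (finite_par_De w)
  have key : ∀ i (z : US cs Y (i + 1) →₀ ℤ), bH (bdV cs Y) i z = 0 →
      ∃ y, bH (bdV cs Y) (i + 1) y = z := by
    intro i z hz
    refine hcov.exact hdd hrel
      ((z.support.image fun x => cs.length (hcov.ch (i + 1) x)).sup id + 1) i z ?_ hz
    intro x hx
    refine Nat.lt_succ_of_le ?_
    exact Finset.le_sup (f := id)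
      (Finset.mem_image_of_mem (fun x => cs.length (hcov.ch (i + 1) x))
        (Finsupp.mem_support_iff.2 hx))
  constructor
  · obtain ⟨e, -⟩ := hempty.nonempty
    exact ⟨e⟩
  · intro x
    have h1 := bH_augV (cs := cs) x
    constructor
    · intro hx
      have h2 : bH (bdV cs Y) 1 x = 0 := h1.trans ((smul_oneP _).2 hx)
      exact key 1 x h2
    · rintro ⟨y, rfl⟩
      rw [← smul_oneP]
      exact h1.symm.trans (hcov.dd hdd 1 y)
  · intro i x
    constructor
    · exact fun hx => key (i + 2) x hx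
    · rintro ⟨y, rfl⟩
      exact hcov.dd hdd (i + 2) y

end

end Pool.Agent.U838.DV
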