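import Pool.Agent.U838.DV.Lists
import Pool.Agent.U838.DV.Acyc

/-!
# The Davis chamber
-/

set_option autoImplicit false

namespace Pool.Agent.U838.DV

open Pool.Agent.Q169.ZD
open Pool.Agent.U838.RT (trivAct)

noncomputable section

open scoped Classical

variable {B : Type} {M : CoxeterMatrix B} {W : Type} [Group W] (cs : CoxeterSystem M W)

/-- strictly increasing lists of subsets `T` with `W_T` finite -/
structure IsCh (l : List (Finset B)) : Prop where
  inc : l.Pairwise (· ⊂ ·)
  fin : ∀ T ∈ l, Finite (par cs (T : Set B))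

/-- the lists of length `k` -/
structure Chn (k : ℕ) where
  val : List (Finset B)
  len : val.length = k
  isCh : IsCh cs val

variable {cs} in
theorem Chn.inj {k : ℕ} : Function.Injective (Chn.val : Chn cs k → List (Finset B)) := by
  rintro ⟨l, h1, h2⟩ ⟨l', h1', h2'⟩ h
  obtain rfl : l = l' := h
  rfl

/-- the first member -/
def hd : List (Finset B) → Set B
  | [] => Set.univ
  | T :: _ => T

variable {cs}

theorem IsCh.sub {l f : List (Finset B)} (h : IsCh cs l) (hf : f.Sublist l) : IsCh cs f :=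
  ⟨h.inc.sublist hf, fun T hT => h.fin T (hf.subset hT)⟩

theorem hd_sub {l f : List (Finset B)} (h : IsCh cs l) (hf : f.Sublist l) : hd l ⊆ hd f := by
  cases f with
  | nil => exact Set.subset_univ _
  | cons b f =>
    cases l with
    | nil => cases hf
    | cons a l =>
      have h1 : b ∈ a :: l := hf.subset List.mem_cons_self
      rcases List.mem_cons.1 h1 with h2 | h2
      · subst h2
        exact subset_rfl
      · have h3 := (List.pairwise_cons.1 h.inc).1 b h2
        exact Finset.coe_subset.2 h3.1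

variable (cs) in
/-- the boundary -/
def bdC (k : ℕ) (e : Chn cs (k + 1)) : Chn cs k →₀ ℤ :=
  (D e.val).comapDomain Chn.val Chn.inj.injOn

theorem bdC_apply (k : ℕ) (e : Chn cs (k + 1)) (f : Chn cs k) : bdC cs k e f = D e.val f.val := rfl

theorem pull (k : ℕ) (x : List (Finset B) →₀ ℤ) (hx : ∀ l, x l ≠ 0 → l.length = k ∧ IsCh cs l) :
    (x.comapDomain (Chn.val : Chn cs k → List (Finset B))
      Chn.inj.injOn).mapDomain Chn.val = x := by
  refine Finsupp.mapDomain_comapDomain _ Chn.inj x ?_
  intro l hl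
  exact ⟨⟨l, (hx l (Finsupp.mem_support_iff.1 hl)).1, (hx l (Finsupp.mem_support_iff.1 hl)).2⟩, rfl⟩

theorem map_bdC (k : ℕ) (e : Chn cs (k + 1)) : (bdC cs k e).mapDomain Chn.val = D e.val := by
  refine pull k (D e.val) fun l hl => ?_
  obtain ⟨h1, h2⟩ := D_face e.val l hl
  exact ⟨by have := e.len; omega, e.isCh.sub h1⟩

theorem map_lf {X Z Z' : Type} (g : X → (Z →₀ ℤ)) (f : Z → Z') (x : X →₀ ℤ) :
    (lf g x).mapDomain f = lf (fun a => (g a).mapDomain f) x := by
  induction x using Finsupp.induction_linear with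
  | zero => rw [map_zero, map_zero, Finsupp.mapDomain_zero]
  | add x y hx hy => rw [map_add, map_add, Finsupp.mapDomain_add, hx, hy]
  | single e n => rw [lf_single, lf_single, Finsupp.mapDomain_smul]

theorem map_bd (k : ℕ) (x : Chn cs (k + 1) →₀ ℤ) :
    (lf (bdC cs k) x).mapDomain Chn.val = lf D (x.mapDomain Chn.val) := by
  rw [map_lf, lf_map]
  exact lf_congr x fun e _ => map_bdC k e

theorem val_inj (k : ℕ) {x y : Chn cs k →₀ ℤ}
    (h : x.mapDomain (Chn.val : Chn cs k → List (Finset B)) = y.mapDomain Chn.val) :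
    x = y := Finsupp.mapDomain_injective Chn.inj h

theorem bd_bd (k : ℕ) (x : Chn cs (k + 2) →₀ ℤ) : lf (bdC cs k) (lf (bdC cs (k + 1)) x) = 0 := by
  apply val_inj
  rw [map_bd, map_bd, lf_D_D, Finsupp.mapDomain_zero]

/-- the alternative for the contraction -/
theorem alt {T : Finset B} {l : List (Finset B)} (hl : IsCh cs l) (hT : (T : Set B) ⊆ hd l) :
    T ∉ l ∨ ∃ l', l = T :: l' ∧ T ∉ l' := by
  cases l with
  | nil => exact Or.inl List.not_mem_nil
  | cons a l =>
    have h1 := (List.pairwise_cons.1 hl.inc).1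
    have hTa : T ⊆ a := Finset.coe_subset.1 hT
    have h2 : T ∉ l := fun h2 => (h1 T h2).2 hTa
    by_cases h : T = a
    · subst h
      exact Or.inr ⟨l, rfl, h2⟩
    · left
      intro h3
      rcases List.mem_cons.1 h3 with h4 | h4
      · exact h h4
      · exact h2 h4

theorem cone {T : Finset B} (hfin : Finite (par cs (T : Set B))) {l : List (Finset B)}
    (hl : IsCh cs l) (hT' : (T : Set B) ⊆ hd l) {m : List (Finset B)} (hm : hT T l m ≠ 0) :
    m = T :: l ∧ IsCh cs m := by
  unfold hT at hm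
  by_cases h : l.head? = some T
  · rw [if_pos h] at hm
    exact absurd rfl hm
  · rw [if_neg h] at hm
    have h1 : m = T :: l := by
      by_contra h1
      exact hm (Finsupp.single_eq_of_ne h1)
    refine ⟨h1, ?_⟩
    subst h1
    refine ⟨List.pairwise_cons.2 ⟨?_, hl.inc⟩, ?_⟩
    · intro b hb
      cases l with
      | nil => cases hb
      | cons a l =>
        have hTa : T ⊂ a := by
          refine ⟨Finset.coe_subset.1 hT', fun h2 => h ?_⟩
          have h3 : a = T := Finset.Subset.antisymm h2 (Finset.coe_subset.1 hT')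
          rw [h3]
          rfl
        rcases List.mem_cons.1 hb with h2 | h2
        · rw [h2]
          exact hTa
        · exact hTa.trans ((List.pairwise_cons.1 hl.inc).1 b h2)
    · intro b hb
      rcases List.mem_cons.1 hb with h2 | h2
      · rw [h2]
        exact hfin
      · exact hl.fin b h2

/-- cycles are boundaries -/
theorem exists_bd {T : Finset B} (hfin : Finite (par cs (T : Set B))) (k : ℕ)
    (x : Chn cs k →₀ ℤ) (hx : ∀ e : Chn cs k, x e ≠ 0 → (T : Set B) ⊆ hd e.val)
    (hx0 : lf D (x.mapDomain Chn.val) = 0) :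
    ∃ y : Chn cs (k + 1) →₀ ℤ, (∀ e : Chn cs (k + 1), y e ≠ 0 → (T : Set B) ⊆ hd e.val) ∧
      lf (bdC cs k) y = x := by
  have hx' : ∀ l, (x.mapDomain Chn.val : List (Finset B) →₀ ℤ) l ≠ 0 →
      l.length = k ∧ IsCh cs l ∧ (T : Set B) ⊆ hd l := by
    intro l hl
    have h1 : l ∈ Set.range (Chn.val : Chn cs k → List (Finset B)) := by
      by_contra h
      exact hl (Finsupp.mapDomain_of_notMem_range _ _ h)
    obtain ⟨e, rfl⟩ := h1
    rw [Finsupp.mapDomain_apply Chn.inj] at hl
    exact ⟨e.len, e.isCh, hx e hl⟩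
  have h1 := lf_D_hT T (x.mapDomain Chn.val) fun l hl => alt (hx' l hl).2.1 (hx' l hl).2.2
  rw [hx0, map_zero, add_zero] at h1
  have hy' : ∀ m, lf (hT T) (x.mapDomain Chn.val) m ≠ 0 →
      (m.length = k + 1 ∧ IsCh cs m) ∧ (T : Set B) ⊆ hd m := by
    intro m hm
    obtain ⟨l, hl, hlm⟩ := exists_of_lf _ _ _ hm
    obtain ⟨h2, h3, h4⟩ := hx' l hl
    obtain ⟨rfl, h6⟩ := cone hfin h3 h4 hlm
    exact ⟨⟨by rw [List.length_cons, h2], h6⟩, subset_rfl⟩
  refine ⟨(lf (hT T) (x.mapDomain Chn.val)).comapDomain Chn.val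
    Chn.inj.injOn, fun e he => (hy' e.val he).2, ?_⟩
  apply val_inj
  rw [map_bd, pull (k + 1) _ fun m hm => (hy' m hm).1, h1]

theorem D_one (x : Chn cs 1 →₀ ℤ) :
    lf D (x.mapDomain Chn.val) = (x.sum fun _ n => n) • Finsupp.single [] 1 := by
  rw [lf_map]
  have h1 : ∀ e : Chn cs 1, D e.val = Finsupp.single [] 1 := by
    rintro ⟨l, hl, -⟩
    obtain ⟨a, rfl⟩ := List.length_eq_one_iff.1 hl
    change Finsupp.single [] 1 - Finsupp.mapDomain _ 0 = _
    rw [Finsupp.mapDomain_zero, sub_zero]
  rw [lf_congr x fun e _ => h1 e]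
  change (x.sum fun e n => n • (Finsupp.single [] 1 : List (Finset B) →₀ ℤ)) = _
  unfold Finsupp.sum
  rw [Finset.sum_smul]

theorem aug_bd (y : Chn cs 2 →₀ ℤ) : ((lf (bdC cs 1) y).sum fun _ n => n) = 0 := by
  have h1 : lf D ((lf (bdC cs 1) y).mapDomain Chn.val) = 0 := by
    rw [map_bd, lf_D_D]
  rw [D_one] at h1
  have h2 := DFunLike.congr_fun h1 []
  rw [Finsupp.smul_apply, Finsupp.single_eq_same, smul_eq_mul, mul_one] at h2
  exact h2

theorem finite_Chn [Finite B] (k : ℕ) : Finite (Chn cs k) := by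
  have h1 : {l : List (Finset B) | l.length = k}.Finite := List.finite_length_eq _ _
  have := h1.to_subtype
  exact Finite.of_injective (fun e : Chn cs k => (⟨e.val, e.len⟩ : {l : List (Finset B) | l.length = k}))
    fun e e' h => Chn.inj (congrArg Subtype.val h)

theorem length_le [Finite B] {l : List (Finset B)} (h : IsCh cs l) :
    l.length ≤ Nat.card (Finset B) := by
  have : Fintype (Finset B) := Fintype.ofFinite _
  rw [Nat.card_eq_fintype_card]
  refine List.Nodup.length_le_card ?_
  exact h.inc.imp fun h1 h2 => h1.ne h2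

attribute [local instance] trivAct

variable (cs) in
/-- the Davis chamber -/
def davis [Finite B] : Mirrored Unit B where
  E k := Chn cs (k + 1)
  act k := trivAct Unit _
  free _ _ _ _ := Subsingleton.elim _ _
  bd k := bdC cs (k + 1)
  bd_smul k h e := by
    change bdC cs (k + 1) e = (bdC cs (k + 1) e).mapDomain fun f => f
    exact Finsupp.mapDomain_id.symm
  mir k e := hd e.val
  mir_smul k h e := by
    change hd e.val = (fun b => b) '' hd e.val
    exact (Set.image_id' _).symm
  mir_face k e f hf := hd_sub e.isCh (D_face e.val f.val hf).1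
  c k := Nat.card (Chn cs (k + 1))
  rep k := by
    have := finite_Chn (cs := cs) (k + 1)
    exact fun a => (Finite.equivFin (Chn cs (k + 1))).symm a
  rep_unique k e := by
    have := finite_Chn (cs := cs) (k + 1)
    refine ⟨Finite.equivFin (Chn cs (k + 1)) e, ⟨1, ?_⟩, ?_⟩
    · change (Finite.equivFin (Chn cs (k + 1))).symm (Finite.equivFin (Chn cs (k + 1)) e) = e
      exact Equiv.symm_apply_apply _ _
    · rintro a ⟨u, hu⟩
      change (Finite.equivFin (Chn cs (k + 1))).symm a = e at hu
      rw [← hu, Equiv.apply_symm_apply]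
  len := Nat.card (Finset B)
  isEmpty i hi := ⟨fun e => by
    have h1 := length_le e.isCh
    rw [e.len] at h1
    omega⟩

theorem face_davis [Finite B] (T : Set B) (hT : Finite (par cs T)) :
    FaceAcyclic (davis cs) T := by
  obtain ⟨T, rfl⟩ : ∃ T' : Finset B, (T' : Set B) = T := ⟨(Set.toFinite T).toFinset, by simp⟩
  refine ⟨⟨⟨[T], rfl, List.pairwise_singleton _ _, ?_⟩, subset_rfl⟩, ?_, ?_⟩
  · intro T' hT'
    rw [List.mem_singleton.1 hT']
    exact hT
  · intro x hx
    constructor
    · intro h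
      refine exists_bd hT 1 x hx ((D_one x).trans ?_)
      exact (congrArg (fun n : ℤ => n • (Finsupp.single [] 1 : List (Finset B) →₀ ℤ)) h).trans
        (zero_smul ℤ _)
    · rintro ⟨y, -, rfl⟩
      exact aug_bd y
  · intro i x hx
    constructor
    · intro h
      refine exists_bd hT (i + 2) x hx ((map_bd (i + 1) x).symm.trans ?_)
      have h1 : lf (bdC cs (i + 1)) x = 0 := h
      rw [h1, Finsupp.mapDomain_zero]
    · rintro ⟨y, -, rfl⟩
      exact bd_bd (i + 1) y

end

end Pool.Agent.U838.DV
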