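import Pool.Agent.U838.DV.Davis
import Pool.Agent.U838.ZD.WDefs

/-!
# The Euler characteristic of the Davis chamber
-/

set_option autoImplicit false

namespace Pool.Agent.U838.DV

open Pool.Agent.Q169.ZD
open Pool.Agent.U838.RT (trivAct)
open Pool.Agent.U838.ZD (euler)

noncomputable section

open scoped Classical

variable {B : Type} {M : CoxeterMatrix B} {W : Type} [Group W] (cs : CoxeterSystem M W)

theorem finite_empty : Finite (par cs ((∅ : Finset B) : Set B)) := by
  have h2 : par cs ((∅ : Finset B) : Set B) = ⊥ := by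
    change Subgroup.closure (cs.simple '' ((∅ : Finset B) : Set B)) = ⊥
    rw [Finset.coe_empty, Set.image_empty, Subgroup.closure_empty]
  rw [h2]
  infer_instance

/-- the chains without the empty set -/
def An (k : ℕ) : Type := {e : Chn cs k // ∅ ∉ e.val}

theorem card_Chn [Finite B] (k : ℕ) :
    Nat.card (Chn cs (k + 1)) = Nat.card (An cs (k + 1)) + Nat.card (An cs k) := by
  have h0 := finite_Chn (cs := cs) (k + 1)
  have h0' := finite_Chn (cs := cs) k
  have h1 := Nat.card_congr (Equiv.sumCompl (fun e : Chn cs (k + 1) => ∅ ∉ e.val)).symm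
  rw [Nat.card_sum] at h1
  rw [h1]
  congr 1
  symm
  let f : An cs k → {e : Chn cs (k + 1) // ¬ ∅ ∉ e.val} := fun e =>
    ⟨⟨∅ :: e.1.val, by rw [List.length_cons, e.1.len], ⟨List.pairwise_cons.2 ⟨fun T hT => by
        rw [Finset.empty_ssubset]
        by_contra h
        rw [Finset.not_nonempty_iff_eq_empty] at h
        exact e.2 (h ▸ hT), e.1.isCh.inc⟩, fun T hT => by
        rcases List.mem_cons.1 hT with h | h
        · rw [h]
          exact finite_empty cs
        · exact e.1.isCh.fin T h⟩⟩, fun h => h List.mem_cons_self⟩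
  refine Nat.card_eq_of_bijective f ⟨?_, ?_⟩
  · intro e e' h
    have h2 : ∅ :: e.1.val = ∅ :: e'.1.val := congrArg (fun x => x.1.val) h
    exact Subtype.ext (Chn.inj (List.cons_inj_right _ |>.1 h2))
  · rintro ⟨⟨l, hl, hl'⟩, he⟩
    change ¬ ∅ ∉ l at he
    push Not at he
    cases l with
    | nil => cases he
    | cons a l =>
      have h2 := List.pairwise_cons.1 hl'.inc
      have ha : a = ∅ := by
        rcases List.mem_cons.1 he with h | h
        · exact h.symm
        · exact absurd (h2.1 ∅ h) (Finset.not_ssubset_empty a)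
      subst ha
      refine ⟨⟨⟨l, Nat.succ_injective hl, h2.2, fun T hT => hl'.fin T (List.mem_cons_of_mem _ hT)⟩,
        fun h => ?_⟩, rfl⟩
      exact absurd (h2.1 ∅ h) (Finset.not_ssubset_empty _)

theorem card_zero : Nat.card (An cs 0) = 1 := by
  rw [Nat.card_eq_one_iff_unique]
  refine ⟨⟨?_⟩, ⟨⟨⟨[], rfl, List.Pairwise.nil, fun T hT => absurd hT List.not_mem_nil⟩,
    List.not_mem_nil⟩⟩⟩
  rintro ⟨⟨l, hl, hl'⟩, h⟩ ⟨⟨m, hm, hm'⟩, h'⟩
  obtain rfl := List.length_eq_zero_iff.1 hl
  obtain rfl := List.length_eq_zero_iff.1 hm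
  rfl

theorem card_top [Finite B] : Nat.card (An cs (Nat.card (Finset B) + 1)) = 0 := by
  have : IsEmpty (An cs (Nat.card (Finset B) + 1)) := ⟨fun e => by
    have h1 := length_le e.1.isCh
    rw [e.1.len] at h1
    omega⟩
  exact Nat.card_of_isEmpty

theorem alt_sum (a : ℕ → ℤ) (n : ℕ) : ∑ i ∈ Finset.range (n + 1), (-1) ^ i * (a (i + 1) + a i) =
    a 0 + (-1) ^ n * a (n + 1) := by
  induction n with
  | zero => simp; ring
  | succ n ih =>
    rw [Finset.sum_range_succ, ih]
    ring

theorem euler_davis [Finite B] : euler (davis cs) = 1 := by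
  have h1 : ∀ i, ((davis cs).c i : ℤ) =
      (Nat.card (An cs (i + 1)) : ℤ) + (Nat.card (An cs i) : ℤ) := by
    intro i
    have h2 : (davis cs).c i = Nat.card (Chn cs (i + 1)) := rfl
    rw [h2, card_Chn]
    push_cast
    rfl
  unfold euler
  rw [Finset.sum_congr rfl fun i _ => by rw [h1 i]]
  have h3 := alt_sum (fun i => (Nat.card (An cs i) : ℤ)) (davis cs).len
  rw [h3]
  have h4 : (davis cs).len = Nat.card (Finset B) := rfl
  rw [h4, card_top, card_zero]
  simp

end

end Pool.Agent.U838.DV
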