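import Pool.Agent.U838.DV.Rel
import Pool.Agent.Q27.Cox.Par
import Pool.Agent.Q169.ZD.Defs

/-!
# The filtration of the complex `𝒰(W, Y)` by the length
-/

set_option autoImplicit false

namespace Pool.Agent.U838.DV

open Pool.Agent.U838.RT
open Pool.Agent.Q169.ZD (par)
open Q27.Cox (R exists_decomp_R length_mul_R descents_R supp supp_eq not_descent
  exists_reduced_word)

noncomputable section

open scoped Classical

variable {B : Type} {M : CoxeterMatrix B} {W : Type} [Group W] (cs : CoxeterSystem M W)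

/-- the right descents -/
def De (w : W) : Set B := {b | cs.length (w * cs.simple b) < cs.length w}

variable {cs}

theorem mem_R_iff (w : W) (J : Set B) : w ∈ R cs J ↔ Disjoint J (De cs w) := by
  rw [Set.disjoint_left]
  constructor
  · intro h b hb hb'
    have h1 := h b hb
    have h2 : cs.length (w * cs.simple b) < cs.length w := hb'
    omega
  · intro h b hb
    have h1 := h hb
    have h2 : ¬ cs.length (w * cs.simple b) < cs.length w := h1
    rcases cs.length_mul_simple w b with h3 | h3 <;> omega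

theorem finite_supp (w : W) : (supp cs w).Finite := by
  obtain ⟨ω, h1, h2⟩ := cs.exists_isReduced w
  rw [supp_eq h1 h2.symm]
  exact List.finite_toSet ω

theorem De_subset (w : W) : De cs w ⊆ supp cs w := by
  intro b hb
  by_contra h
  have h1 : b ∉ supp cs w⁻¹ := by rwa [Q27.Cox.supp_inv]
  have h2 := not_descent h1
  rw [cs.length_inv, ← cs.length_inv (cs.simple b * w⁻¹), mul_inv_rev, inv_inv,
    cs.inv_simple] at h2
  have h3 : cs.length (w * cs.simple b) < cs.length w := hb
  omega

theorem finite_De (w : W) : (De cs w).Finite := (finite_supp w).subset (De_subset w)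

/-- the descents generate a finite group -/
theorem finite_par_De (w : W) : Finite (par cs (De cs w)) := by
  have hfin := finite_De (cs := cs) w
  have h1 : {l : List B | (∀ i ∈ l, i ∈ De cs w) ∧ l.length ≤ cs.length w}.Finite := by
    have h2 : {l : List (De cs w) | l.length ≤ cs.length w}.Finite := by
      have := hfin.to_subtype
      exact List.finite_length_le _ _
    refine (h2.image (fun l => l.map Subtype.val)).subset ?_
    rintro l ⟨hl, hl'⟩
    refine ⟨l.attach.map (fun x => ⟨x.1, hl x.1 x.2⟩), ?_, ?_⟩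
    · change (l.attach.map (fun x => (⟨x.1, hl x.1 x.2⟩ : De cs w))).length ≤ _
      rw [List.length_map, List.length_attach]
      exact hl'
    · change (l.attach.map (fun x => (⟨x.1, hl x.1 x.2⟩ : De cs w))).map Subtype.val = l
      rw [List.map_map]
      exact List.attach_map_subtype_val l
  have h3 : ((par cs (De cs w) : Subgroup W) : Set W).Finite := by
    refine (h1.image cs.wordProd).subset ?_
    intro y hy
    obtain ⟨ω, h4, h5, rfl⟩ := exists_reduced_word hy
    refine ⟨ω, ⟨h5, ?_⟩, rfl⟩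
    have h6 := descents_R (X := De cs w) (b := w) (fun i hi => hi) hy
    rw [h4.eq] at h6
    omega
  exact h3.to_subtype

variable (cs)

/-- `U` is the complex `𝒰(W, F)` -/
structure Cov {F U : ℕ → Type} (bd : ∀ i, F (i + 1) → (F i →₀ ℤ))
    (bdU : ∀ i, U (i + 1) → (U i →₀ ℤ)) (mir : ∀ i, F i → Set B)
    (κ : ∀ i, F i → W → U i) : Prop where
  surj : ∀ i (x : U i), ∃ e w, x = κ i e w
  eq : ∀ i e e' w w', κ i e w = κ i e' w' ↔ e = e' ∧ w⁻¹ * w' ∈ par cs (mir i e)
  bd : ∀ i e w, bdU i (κ (i + 1) e w) = (bd i e).mapDomain (fun f => κ i f w)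

variable {cs} {F U : ℕ → Type} {bd : ∀ i, F (i + 1) → (F i →₀ ℤ)}
    {bdU : ∀ i, U (i + 1) → (U i →₀ ℤ)} {mir : ∀ i, F i → Set B}
    {κ : ∀ i, F i → W → U i} (h : Cov cs bd bdU mir κ)

include h

theorem Cov.exists_rep (i : ℕ) (x : U i) : ∃ p : F i × W, x = κ i p.1 p.2 ∧ p.2 ∈ R cs (mir i p.1) := by
  obtain ⟨e, w, rfl⟩ := h.surj i x
  obtain ⟨v, hv, y, hy, rfl⟩ := exists_decomp_R (cs := cs) (mir i e) w
  refine ⟨(e, v), ?_, hv⟩
  rw [h.eq]
  refine ⟨rfl, ?_⟩
  rw [mul_inv_rev, inv_mul_cancel_right]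
  exact inv_mem hy

/-- the cell of `F` -/
def Cov.pr (i : ℕ) (x : U i) : F i := (h.exists_rep i x).choose.1

/-- the chamber -/
def Cov.ch (i : ℕ) (x : U i) : W := (h.exists_rep i x).choose.2

theorem Cov.kap (i : ℕ) (x : U i) : κ i (h.pr i x) (h.ch i x) = x :=
  (h.exists_rep i x).choose_spec.1.symm

theorem Cov.ch_mem (i : ℕ) (x : U i) : h.ch i x ∈ R cs (mir i (h.pr i x)) :=
  (h.exists_rep i x).choose_spec.2

/-- the length goes up -/
theorem Cov.len (i : ℕ) {e f : F i} {v w : W} (hv : v ∈ R cs (mir i e)) (he : κ i f w = κ i e v) :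
    f = e ∧ (w = v ∨ cs.length v < cs.length w) := by
  rw [eq_comm, h.eq] at he
  obtain ⟨rfl, h1⟩ := he
  refine ⟨rfl, ?_⟩
  have h2 := length_mul_R hv h1
  rw [mul_inv_cancel_left] at h2
  by_cases h3 : v⁻¹ * w = 1
  · left
    rw [inv_mul_eq_one] at h3
    exact h3.symm
  · right
    have h4 : cs.length (v⁻¹ * w) ≠ 0 := fun h4 => h3 (cs.length_eq_zero_iff.1 h4)
    omega

theorem Cov.ch_kap (i : ℕ) {e : F i} {v : W} (hv : v ∈ R cs (mir i e)) :
    h.pr i (κ i e v) = e ∧ h.ch i (κ i e v) = v := by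
  have h1 := h.len i hv (h.kap i (κ i e v))
  have h2 := h.len i (h.ch_mem i (κ i e v)) (h.kap i (κ i e v)).symm
  refine ⟨h1.1, ?_⟩
  rcases h1.2 with h3 | h3
  · exact h3
  · rcases h2.2 with h4 | h4
    · exact h4.symm
    · omega

theorem Cov.inj (i : ℕ) (w : W) : Function.Injective (fun f => κ i f w) := by
  intro f g hfg
  exact ((h.eq i f g w w).1 hfg).1

/-- the component of a chain in the chamber `w` -/
def Cov.rw (i : ℕ) (w : W) : (U i →₀ ℤ) →+ (F i →₀ ℤ) :=
  ev i (fun x => if h.ch i x = w then Finsupp.single (h.pr i x) 1 else 0)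

theorem Cov.rw_apply (i : ℕ) {w : W} (z : U i →₀ ℤ) {e : F i} (he : w ∈ R cs (mir i e)) :
    h.rw i w z e = z (κ i e w) := by
  induction z using Finsupp.induction_linear with
  | zero => rw [map_zero]; rfl
  | add x y hx hy => rw [map_add, Finsupp.add_apply, hx, hy, Finsupp.add_apply]
  | single x n =>
    unfold Cov.rw
    rw [ev_single, Finsupp.smul_apply, Finsupp.single_apply]
    by_cases h1 : x = κ i e w
    · subst h1
      obtain ⟨h2, h3⟩ := h.ch_kap i he
      rw [if_pos h3, h2, Finsupp.single_eq_same, if_pos rfl, smul_eq_mul, mul_one]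
    · rw [if_neg h1]
      by_cases h2 : h.ch i x = w
      · rw [if_pos h2, Finsupp.single_apply, if_neg, smul_zero]
        intro h3
        apply h1
        rw [← h3, ← h2]
        exact (h.kap i x).symm
      · rw [if_neg h2]
        exact smul_zero _

theorem Cov.rw_supp (i : ℕ) {w : W} (z : U i →₀ ℤ) {e : F i} (he : h.rw i w z e ≠ 0) :
    w ∈ R cs (mir i e) := by
  by_contra hcon
  apply he
  induction z using Finsupp.induction_linear with
  | zero => rw [map_zero]; rfl
  | add x y hx hy =>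
    rw [map_add, Finsupp.add_apply]
    by_cases h1 : h.rw i w x e = 0
    · by_cases h2 : h.rw i w y e = 0
      · rw [h1, h2, add_zero]
      · exact absurd (hy h2) h2
    · exact absurd (hx h1) h1
  | single x n =>
    unfold Cov.rw
    rw [ev_single, Finsupp.smul_apply]
    by_cases h2 : h.ch i x = w
    · rw [if_pos h2, Finsupp.single_apply, if_neg, smul_zero]
      intro h3
      apply hcon
      rw [← h3, ← h2]
      exact h.ch_mem i x
    · rw [if_neg h2]
      exact smul_zero _

/-- the boundary in the chamber `w`, if there are no longer chambers -/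
theorem Cov.bd_rw (i : ℕ) {w : W} (z : U (i + 1) →₀ ℤ)
    (hz : ∀ x, z x ≠ 0 → cs.length (h.ch (i + 1) x) ≤ cs.length w) {f : F i}
    (hf : w ∈ R cs (mir i f)) :
    bH bd i (h.rw (i + 1) w z) f = bH bdU i z (κ i f w) := by
  rw [bH_apply bdU]
  have h1 : h.rw (i + 1) w z = ∑ x ∈ z.support, z x •
      (if h.ch (i + 1) x = w then Finsupp.single (h.pr (i + 1) x) 1 else 0) := rfl
  rw [h1, map_sum, Finsupp.finsetSum_apply]
  refine Finset.sum_congr rfl fun x hx => ?_
  rw [map_zsmul, Finsupp.smul_apply, smul_eq_mul]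
  congr 1
  have h2 : bdU i x = (bd i (h.pr _ x)).mapDomain (fun f => κ i f (h.ch _ x)) := by
    rw [← h.bd, h.kap]
  rw [h2]
  by_cases h3 : h.ch (i + 1) x = w
  · rw [if_pos h3, h3]
    have h4 := Finsupp.mapDomain_apply (h.inj i w) (bd i (h.pr _ x)) f
    rw [h4]
    change bL bd i (Finsupp.single (h.pr (i + 1) x) 1) f = _
    rw [bL_single, one_smul]
  · rw [if_neg h3, map_zero]
    symm
    refine Finsupp.mapDomain_of_notMem_range _ _ ?_
    rintro ⟨g, hg⟩
    have h4 := h.len i hf hg
    have h5 := hz x (Finsupp.mem_support_iff.1 hx)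
    rcases h4.2 with h6 | h6
    · exact h3 h6
    · omega

theorem Cov.bd_map (i : ℕ) (w : W) (z : F (i + 1) →₀ ℤ) :
    bH bdU i (z.mapDomain (fun f => κ (i + 1) f w)) =
      (bH bd i z).mapDomain (fun f => κ i f w) := by
  induction z using Finsupp.induction_linear with
  | zero => rw [Finsupp.mapDomain_zero, map_zero, map_zero, Finsupp.mapDomain_zero]
  | add x y hx hy =>
    rw [Finsupp.mapDomain_add, map_add, map_add, hx, hy, Finsupp.mapDomain_add]
  | single e n =>
    rw [Finsupp.mapDomain_single]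
    change bL bdU i _ = (bL bd i _).mapDomain _
    rw [bL_single, bL_single, h.bd, Finsupp.mapDomain_smul]

/-- **exactness of `𝒰`** -/
theorem Cov.exact (hdd : DD bd) (hrel : ∀ w : W, REx bd (SM mir ∅ (De cs w))) (n : ℕ) :
    ∀ i (z : U (i + 1) →₀ ℤ), (∀ x, z x ≠ 0 → cs.length (h.ch (i + 1) x) < n) →
      bH bdU i z = 0 → ∃ y, bH bdU (i + 1) y = z := by
  induction n with
  | zero =>
    intro i z hz _
    refine ⟨0, ?_⟩
    rw [map_zero]
    symm
    refine Finsupp.ext fun x => ?_
    by_contra h1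
    exact absurd (hz x h1) (Nat.not_lt_zero _)
  | succ n ih =>
    intro i z hz hz0
    have hch : ∀ w : W, ∃ y : F (i + 2) →₀ ℤ, cs.length w = n →
        ∀ f, w ∈ R cs (mir (i + 1) f) → bH bd (i + 1) y f = z (κ (i + 1) f w) := by
      intro w
      by_cases hw : cs.length w = n
      · obtain ⟨y, -, hy⟩ := hrel w i (h.rw (i + 1) w z)
          (fun e he => ⟨Set.empty_subset _, (mem_R_iff w _).1 (h.rw_supp (i + 1) z he)⟩)
          (fun f hf => by
            rw [h.bd_rw i z (fun x hx => by rw [hw]; exact Nat.lt_succ_iff.1 (hz x hx))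
              ((mem_R_iff w _).2 hf.2), hz0]
            rfl)
        refine ⟨y, fun _ f hf => ?_⟩
        rw [hy f ⟨Set.empty_subset _, (mem_R_iff w _).1 hf⟩, h.rw_apply _ _ hf]
      · exact ⟨0, fun h1 => absurd h1 hw⟩
    choose y hy using hch
    set T : Finset W := (z.support.image (h.ch (i + 1))).filter (fun w => cs.length w = n) with hT
    set Y : U (i + 2) →₀ ℤ := ∑ w ∈ T, (y w).mapDomain (fun f => κ (i + 2) f w) with hY
    have hbY : ∀ x, n ≤ cs.length (h.ch (i + 1) x) → bH bdU (i + 1) Y x = z x := by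
      intro x hx
      have h1 : bH bdU (i + 1) Y =
          ∑ w ∈ T, (bH bd (i + 1) (y w)).mapDomain (fun f => κ (i + 1) f w) := by
        rw [hY, map_sum]
        exact Finset.sum_congr rfl fun w _ => h.bd_map (i + 1) w (y w)
      rw [h1, Finsupp.finsetSum_apply]
      have h2 : ∀ w ∈ T, w ≠ h.ch (i + 1) x →
          (bH bd (i + 1) (y w)).mapDomain (fun f => κ (i + 1) f w) x = 0 := by
        intro w hw hne
        refine Finsupp.mapDomain_of_notMem_range _ _ ?_
        rintro ⟨g, hg⟩
        have h3 : κ (i + 1) g w = κ (i + 1) (h.pr _ x) (h.ch _ x) := hg.trans (h.kap _ x).symm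
        have h4 := h.len (i + 1) (h.ch_mem _ x) h3
        have h5 := (Finset.mem_filter.1 hw).2
        rcases h4.2 with h6 | h6
        · exact hne h6
        · omega
      by_cases hxT : h.ch (i + 1) x ∈ T
      · rw [Finset.sum_eq_single_of_mem _ hxT h2]
        have h3 := (Finset.mem_filter.1 hxT).2
        have h4 := Finsupp.mapDomain_apply (h.inj (i + 1) (h.ch (i + 1) x))
          (bH bd (i + 1) (y (h.ch (i + 1) x))) (h.pr (i + 1) x)
        have h5 : κ (i + 1) (h.pr (i + 1) x) (h.ch (i + 1) x) = x := h.kap _ x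
        rw [h5] at h4
        rw [h4, hy _ h3 _ (h.ch_mem _ x), h5]
      · rw [Finset.sum_eq_zero fun w hw => h2 w hw fun h3 => hxT (h3 ▸ hw)]
        by_contra h3
        apply hxT
        rw [hT, Finset.mem_filter]
        refine ⟨Finset.mem_image_of_mem _ (Finsupp.mem_support_iff.2 (Ne.symm h3)), ?_⟩
        have h4 := hz x (Ne.symm h3)
        omega
    have hYc : bH bdU i (bH bdU (i + 1) Y) = 0 := by
      have h1 : bH bdU (i + 1) Y =
          ∑ w ∈ T, (bH bd (i + 1) (y w)).mapDomain (fun f => κ (i + 1) f w) := by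
        rw [hY, map_sum]
        exact Finset.sum_congr rfl fun w _ => h.bd_map (i + 1) w (y w)
      rw [h1, map_sum]
      refine Finset.sum_eq_zero fun w _ => ?_
      have h2 : bH bd i (bH bd (i + 1) (y w)) = 0 := cyc_bd bd hdd (i + 1) (y w)
      rw [h.bd_map, h2, Finsupp.mapDomain_zero]
    obtain ⟨y', hy'⟩ := ih i (z - bH bdU (i + 1) Y) (fun x hx => by
      by_contra hcon
      push Not at hcon
      apply hx
      rw [Finsupp.sub_apply, hbY x hcon, sub_self]) (by rw [map_sub, hz0, hYc, sub_self])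
    refine ⟨y' + Y, ?_⟩
    rw [map_add, hy', sub_add_cancel]

end

end Pool.Agent.U838.DV
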