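import Pool.Agent.U838.DV.Euler
import Pool.Agent.U838.ZD.Fin

/-!
# The theorem for Coxeter groups and for local conditions
-/

set_option autoImplicit false

namespace Pool.Agent.U838.DV

open Pool.Agent.Q169.ZD
open Pool.Agent.H919R4.ZS (FinRes toRed)
open Pool.Agent.TH38.CX (AcyclicGComplex)
open Pool.Agent.U838.RT (trivAct resN)
open Pool.Agent.U838.ZD (euler relEuler weightedEuler cell_job IsU sub core cofin_U stab_finite)

noncomputable section

open scoped Classical

/-- the action through a homomorphism -/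
def viaHom {G G' : Type} [Group G] [Group G'] (f : G' →* G) (U : AcyclicGComplex G) :
    AcyclicGComplex G' where
  E := U.E
  act i := MulAction.compHom _ f
  bd := U.bd
  bd_smul i g x := U.bd_smul i (f g) x
  len := U.len
  isEmpty := U.isEmpty
  nonempty := U.nonempty
  exact_zero := U.exact_zero
  exact_succ := U.exact_succ

theorem fin_davis {B : Type} [Finite B] {M : CoxeterMatrix B} {W : Type} [Group W]
    (cs : CoxeterSystem M W) (i : ℕ) (e : (davis cs).E i) :
    Finite (par cs ((davis cs).mir i e)) := by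
  obtain ⟨l, hl, hl'⟩ := (e : Chn cs (i + 1))
  cases l with
  | nil => cases hl
  | cons T l => exact hl'.fin T List.mem_cons_self

theorem coxeter {B : Type} [Finite B] {M : CoxeterMatrix B} {W : Type} [Group W]
    (cs : CoxeterSystem M W) (N : Subgroup W) [N.FiniteIndex]
    (hN : ∀ g ∈ N, IsOfFinOrder g → g = 1) :
    Nonempty (FinRes N) ∧ ∀ X : FinRes N, ∃ i, Nontrivial (X.homology (toRed N) i) := by
  let := trivAct Unit B
  have hφ : ∀ (h : Unit) (b : B), (1 : Unit →* MulAut W) h (cs.simple b) =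
      cs.simple (h • b) := fun _ _ => rfl
  have hA : IsAcyclic cs (davis cs) := isAcyclic fun T hT => face_davis T hT
  have hfin := fin_davis cs
  obtain ⟨U, κ, h1, h2, h3, h4⟩ := cell_job B M W cs Unit 1 hφ (davis cs) hA
  have hU : IsU cs (davis cs) U κ := ⟨h1, h2, h3, h4⟩
  let V : AcyclicGComplex W := viaHom SemidirectProduct.inl U
  obtain ⟨h5, h6⟩ := sub V N
    (fun i n e hn => by
      have h8 := stab_finite cs 1 (davis cs) hfin U κ hU i (SemidirectProduct.inl (n : W)) e hn
      rw [isOfFinOrder_iff_pow_eq_one] at h8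
      obtain ⟨k, hk, hk1⟩ := h8
      rw [← map_pow, ← map_one (SemidirectProduct.inl : W →* W ⋊[(1 : Unit →* MulAut W)] Unit)]
        at hk1
      exact Subtype.ext (hN _ n.2 (isOfFinOrder_iff_pow_eq_one.2
        ⟨k, hk, SemidirectProduct.inl_injective hk1⟩)))
    (fun i => ⟨_, fun e => by
      obtain ⟨g, hg⟩ := cofin_U hU i e
      refine ⟨g.left, ?_⟩
      have h7 : g = SemidirectProduct.inl g.left := SemidirectProduct.ext rfl rfl
      rw [h7] at hg
      exact hg⟩)
  refine ⟨h5, fun X => ?_⟩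
  by_contra hcon
  have h7 : ∀ i, Subsingleton (X.homology (toRed N) i) := fun i =>
    not_nontrivial_iff_subsingleton.1 fun h4 => hcon ⟨i, h4⟩
  have h8 := (core cs 1 hφ (davis cs) hfin U κ hU (h6 X h7)).2.1
  rw [euler_davis] at h8
  exact one_ne_zero h8

/-- the general case, local conditions -/
theorem general {B : Type} {M : CoxeterMatrix B} {W : Type} [Group W] (cs : CoxeterSystem M W)
    {H : Type} [Group H] [MulAction H B] (φ : H →* MulAut W)
    (hφ : ∀ h b, φ h (cs.simple b) = cs.simple (h • b)) (Y : Mirrored H B)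
    (hY : ∀ T : Set B, Finite (par cs T) → FaceAcyclic Y T)
    (hfin : ∀ i e, Finite (par cs (Y.mir i e)))
    (N : Subgroup (W ⋊[φ] H)) [N.FiniteIndex] (hN : ∀ g ∈ N, IsOfFinOrder g → g = 1)
    (h : (∃ q : W → ℝ, IsWeight cs q ∧ (∀ h w, q (φ h w) = q w) ∧ weightedEuler cs Y q ≠ 0) ∨
      euler Y ≠ 0 ∨ relEuler Y ≠ 0) :
    Nonempty (FinRes N) ∧ ∀ X : FinRes N, ∃ i, Nontrivial (X.homology (toRed N) i) := by
  obtain ⟨h1, h2⟩ := Pool.Agent.U838.ZD.final cs φ hφ Y (isAcyclic hY) hfin N hN
  refine ⟨h1, fun X => ?_⟩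
  by_contra hcon
  have h3 : ∀ i, Subsingleton (X.homology (toRed N) i) := fun i =>
    not_nontrivial_iff_subsingleton.1 fun h4 => hcon ⟨i, h4⟩
  obtain ⟨h4, h5, h6⟩ := h2 X h3
  rcases h with ⟨q, hq, hq', hq''⟩ | h | h
  · exact hq'' (h4 q hq hq')
  · exact h h5
  · exact h h6

end

end Pool.Agent.U838.DV
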