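import Mathlib

/-!
# The simplicial boundary on lists
-/

set_option autoImplicit false

namespace Pool.Agent.U838.DV

noncomputable section

open scoped Classical

/-- the linear extension of a map on a basis -/
def lf {X Z : Type} (g : X → (Z →₀ ℤ)) : (X →₀ ℤ) →+ (Z →₀ ℤ) where
  toFun x := x.sum fun e n => n • g e
  map_zero' := Finsupp.sum_zero_index
  map_add' _ _ := Finsupp.sum_add_index' (fun a => zero_smul ℤ (g a)) (fun a m n => add_smul m n (g a))

theorem lf_single {X Z : Type} (g : X → (Z →₀ ℤ)) (e : X) (n : ℤ) :
    lf g (Finsupp.single e n) = n • g e :=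
  Finsupp.sum_single_index (h := fun e n => n • g e) (zero_smul ℤ (g e))

theorem lf_map {X X' Z : Type} (g : X' → (Z →₀ ℤ)) (f : X → X') (x : X →₀ ℤ) :
    lf g (x.mapDomain f) = lf (fun a => g (f a)) x := by
  induction x using Finsupp.induction_linear with
  | zero => rw [Finsupp.mapDomain_zero, map_zero, map_zero]
  | add x y hx hy => rw [Finsupp.mapDomain_add, map_add, map_add, hx, hy]
  | single e n => rw [Finsupp.mapDomain_single, lf_single, lf_single]

theorem lf_congr {X Z : Type} {g g' : X → (Z →₀ ℤ)} (x : X →₀ ℤ)
    (h : ∀ e, x e ≠ 0 → g e = g' e) : lf g x = lf g' x := by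
  change (x.sum fun e n => n • g e) = x.sum fun e n => n • g' e
  exact Finset.sum_congr rfl fun e he => by
    change x e • g e = x e • g' e
    rw [h e (Finsupp.mem_support_iff.1 he)]

theorem lf_single_map {X Z : Type} (f : X → Z) (x : X →₀ ℤ) :
    lf (fun a => Finsupp.single (f a) 1) x = x.mapDomain f := by
  induction x using Finsupp.induction_linear with
  | zero => rw [Finsupp.mapDomain_zero, map_zero]
  | add x y hx hy => rw [Finsupp.mapDomain_add, map_add, hx, hy]
  | single e n =>
    rw [Finsupp.mapDomain_single, lf_single, Finsupp.smul_single, smul_eq_mul, mul_one]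

theorem lf_apply {X Z : Type} (g : X → (Z →₀ ℤ)) (x : X →₀ ℤ) (f : Z) :
    lf g x f = ∑ e ∈ x.support, x e * g e f := by
  change (x.sum fun e n => n • g e) f = _
  unfold Finsupp.sum
  rw [Finsupp.finsetSum_apply]
  refine Finset.sum_congr rfl fun e _ => ?_
  rw [Finsupp.smul_apply, smul_eq_mul]

theorem exists_of_lf {X Z : Type} (g : X → (Z →₀ ℤ)) (x : X →₀ ℤ) (f : Z) (h : lf g x f ≠ 0) :
    ∃ e, x e ≠ 0 ∧ g e f ≠ 0 := by
  by_contra hcon
  push Not at hcon
  apply h
  rw [lf_apply]
  exact Finset.sum_eq_zero fun e he => by rw [hcon e (Finsupp.mem_support_iff.1 he), mul_zero]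

variable {α : Type}

/-- the boundary of a list: the alternating sum of the lists with one member deleted -/
def D : List α → (List α →₀ ℤ)
  | [] => 0
  | a :: l => Finsupp.single l 1 - (D l).mapDomain (fun m => a :: m)

theorem cons_inj (a : α) : Function.Injective (fun m : List α => a :: m) := fun _ _ h => by
  simpa using h

theorem D_face (l f : List α) (h : D l f ≠ 0) : f.Sublist l ∧ f.length + 1 = l.length := by
  induction l generalizing f with
  | nil => exact absurd rfl h
  | cons a l ih =>
    by_cases h1 : f = l
    · subst h1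
      exact ⟨List.sublist_cons_self a f, rfl⟩
    · change (Finsupp.single l 1 - (D l).mapDomain (fun m => a :: m) : List α →₀ ℤ) f ≠ 0 at h
      rw [Finsupp.sub_apply, Finsupp.single_eq_of_ne h1, zero_sub, neg_ne_zero] at h
      have h2 : f ∈ Set.range (fun m : List α => a :: m) := by
        by_contra h3
        exact h (Finsupp.mapDomain_of_notMem_range _ _ h3)
      obtain ⟨m, rfl⟩ := h2
      have h4 := Finsupp.mapDomain_apply (cons_inj a) (D l) m
      have h3 : D l m ≠ 0 := by
        rw [← h4]
        exact h
      obtain ⟨h5, h6⟩ := ih m h3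
      exact ⟨h5.cons_cons a, by
        change (m.length + 1) + 1 = l.length + 1
        rw [h6]⟩

theorem lf_D_cons (a : α) (x : List α →₀ ℤ) :
    lf D (x.mapDomain (fun m => a :: m)) = x - (lf D x).mapDomain (fun m => a :: m) := by
  induction x using Finsupp.induction_linear with
  | zero => simp
  | add x y hx hy =>
    rw [Finsupp.mapDomain_add, map_add, map_add, hx, hy, Finsupp.mapDomain_add]
    abel
  | single e n =>
    rw [Finsupp.mapDomain_single, lf_single, lf_single, Finsupp.mapDomain_smul]
    change n • (Finsupp.single e 1 - _) = _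
    rw [smul_sub, Finsupp.smul_single, smul_eq_mul, mul_one]

theorem D_D (l : List α) : lf D (D l) = 0 := by
  induction l with
  | nil => exact map_zero _
  | cons a l ih =>
    change lf D (Finsupp.single l 1 - (D l).mapDomain (fun m => a :: m)) = 0
    rw [map_sub, lf_D_cons, lf_single, one_smul, ih, Finsupp.mapDomain_zero, sub_zero, sub_self]

theorem lf_D_D (x : List α →₀ ℤ) : lf D (lf D x) = 0 := by
  induction x using Finsupp.induction_linear with
  | zero => rw [map_zero, map_zero]
  | add x y hx hy => rw [map_add, map_add, hx, hy, add_zero]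
  | single e n => rw [lf_single, map_zsmul, D_D, smul_zero]

/-- the contraction -/
def hT (T : α) (l : List α) : List α →₀ ℤ :=
  if l.head? = some T then 0 else Finsupp.single (T :: l) 1

theorem D_hT (T : α) (l : List α) (h : T ∉ l ∨ ∃ l', l = T :: l' ∧ T ∉ l') :
    lf D (hT T l) + lf (hT T) (D l) = Finsupp.single l 1 := by
  have hn : ∀ m : List α, T ∉ m → hT T m = Finsupp.single (T :: m) 1 := by
    intro m hm
    unfold hT
    rw [if_neg]
    intro h1
    exact hm (List.mem_of_head? h1)
  rcases h with h | ⟨l', rfl, h⟩
  · rw [hn l h, lf_single, one_smul]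
    have h1 : lf (hT T) (D l) = (D l).mapDomain (fun m => T :: m) := by
      rw [← lf_single_map]
      refine lf_congr _ fun f hf => hn f fun h2 => h ?_
      exact (D_face l f hf).1.subset h2
    rw [h1]
    change (Finsupp.single l 1 - (D l).mapDomain (fun m => T :: m)) + _ = _
    rw [sub_add_cancel]
  · have h1 : hT T (T :: l') = 0 := by
      unfold hT
      rw [List.head?_cons, if_pos rfl]
    rw [h1, map_zero, zero_add]
    change lf (hT T) (Finsupp.single l' 1 - (D l').mapDomain (fun m => T :: m)) = _
    rw [map_sub, lf_single, one_smul, hn l' h, lf_map]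
    have h2 : lf (fun m => hT T (T :: m)) (D l') = 0 := by
      have h3 : (fun m : List α => hT T (T :: m)) = fun _ => 0 := by
        funext m
        unfold hT
        rw [List.head?_cons, if_pos rfl]
      rw [h3]
      change ((D l').sum fun e n => n • (0 : List α →₀ ℤ)) = 0
      simp
    rw [h2, sub_zero]

theorem lf_comp {X Z Z' : Type} (g : Z → (Z' →₀ ℤ)) (g' : X → (Z →₀ ℤ)) (x : X →₀ ℤ) :
    lf g (lf g' x) = lf (fun l => lf g (g' l)) x := by
  induction x using Finsupp.induction_linear with
  | zero => rw [map_zero, map_zero, map_zero]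
  | add x y hx hy => rw [map_add, map_add, map_add, hx, hy]
  | single e n => rw [lf_single, map_zsmul, lf_single]

theorem lf_add {X Z : Type} (g g' : X → (Z →₀ ℤ)) (x : X →₀ ℤ) :
    lf g x + lf g' x = lf (fun l => g l + g' l) x := by
  induction x using Finsupp.induction_linear with
  | zero => rw [map_zero, map_zero, map_zero, add_zero]
  | add x y hx hy =>
    rw [map_add, map_add, map_add, ← hx, ← hy]
    abel
  | single e n => rw [lf_single, lf_single, lf_single, smul_add]

theorem lf_D_hT (T : α) (x : List α →₀ ℤ)
    (h : ∀ l, x l ≠ 0 → T ∉ l ∨ ∃ l', l = T :: l' ∧ T ∉ l') :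
    lf D (lf (hT T) x) + lf (hT T) (lf D x) = x := by
  rw [lf_comp, lf_comp, lf_add, lf_congr x fun l hl => D_hT T l (h l hl), lf_single_map]
  exact Finsupp.mapDomain_id

end

end Pool.Agent.U838.DV
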