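import Pool.Agent.U838.RT.Chain

/-!
# Relative exactness of chains
-/

set_option autoImplicit false

namespace Pool.Agent.U838.DV

open Pool.Agent.U838.RT
open Pool.Agent.U838.RT.Sp (Cv Cl)

noncomputable section

open scoped Classical

variable {F : ℕ → Type} (bd : ∀ i, F (i + 1) → (F i →₀ ℤ))

theorem bH_apply (i : ℕ) (x : F (i + 1) →₀ ℤ) (f : F i) :
    bH bd i x f = ∑ e ∈ x.support, x e * bd i e f := by
  change (x.sum fun e n => n • bd i e) f = _
  unfold Finsupp.sum
  rw [Finsupp.finsetSum_apply]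
  refine Finset.sum_congr rfl fun e _ => ?_
  rw [Finsupp.smul_apply, smul_eq_mul]

theorem bH_zero_of (i : ℕ) (x : F (i + 1) →₀ ℤ) (f : F i) (h : ∀ e, x e ≠ 0 → bd i e f = 0) :
    bH bd i x f = 0 := by
  rw [bH_apply]
  exact Finset.sum_eq_zero fun e he => by rw [h e (Finsupp.mem_support_iff.1 he), mul_zero]

theorem exists_of_bH (i : ℕ) (x : F (i + 1) →₀ ℤ) (f : F i) (h : bH bd i x f ≠ 0) :
    ∃ e, x e ≠ 0 ∧ bd i e f ≠ 0 := by
  by_contra hcon
  push Not at hcon
  exact h (bH_zero_of bd i x f hcon)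

/-- the chain complex of the locally closed set `S` of cells is exact -/
def REx (S : ∀ i, Set (F i)) : Prop :=
  ∀ i (z : F (i + 1) →₀ ℤ), z ∈ chA S (i + 1) → (∀ f ∈ S i, bH bd i z f = 0) →
    ∃ y ∈ chA S (i + 2), ∀ f ∈ S (i + 1), bH bd (i + 1) y f = z f

variable {bd}

theorem third (hdd : DD bd) (h0 : IsEmpty (F 0)) {S Z : ∀ i, Set (F i)} (hcv : Cv bd S)
    (hZ : Cl bd S Z) (hS : REx bd S) (hZe : REx bd Z) : REx bd (fun i => S i \ Z i) := by
  intro i z hz hz0
  have hzS : z ∈ chA S (i + 1) := fun e he => (hz e he).1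
  -- a chain in `Z` with the same boundary
  obtain ⟨u, hu, hu1⟩ : ∃ u ∈ chA Z (i + 1), ∀ f ∈ Z i, bH bd i u f = bH bd i z f := by
    cases i with
    | zero => exact ⟨0, zero_mem _, fun f _ => (h0.false f).elim⟩
    | succ k =>
      set w := (bH bd (k + 1) z).filter (fun f => f ∈ Z (k + 1)) with hw
      have hwZ : w ∈ chA Z (k + 1) := by
        intro f hf
        by_contra h
        exact hf (Finsupp.filter_apply_neg _ _ h)
      have hwc : ∀ g ∈ Z k, bH bd k w g = 0 := by
        intro g hg
        have h1 : bH bd (k + 1) z = w + (bH bd (k + 1) z).filter (fun f => f ∉ Z (k + 1)) :=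
          (Finsupp.filter_add_filter_not _ _).symm
        have h2 : bH bd k (bH bd (k + 1) z) g = 0 := by
          have h3 : bH bd k (bH bd (k + 1) z) = 0 := cyc_bd bd hdd (k + 1) z
          rw [h3]
          rfl
        rw [h1, map_add, Finsupp.add_apply] at h2
        suffices hv : bH bd k ((bH bd (k + 1) z).filter (fun f => f ∉ Z (k + 1))) g = 0 by
          rw [hv, add_zero] at h2
          exact h2
        refine bH_zero_of bd k _ g ?_
        intro f hf
        have h3 : f ∉ Z (k + 1) := by
          by_contra h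
          exact hf (Finsupp.filter_apply_neg _ _ (fun h4 => h4 h))
        rw [Finsupp.filter_apply_pos (fun f => f ∉ Z (k + 1)) _ h3] at hf
        by_contra h4
        have h5 : f ∉ S (k + 1) := fun h5 => hf (hz0 f ⟨h5, h3⟩)
        obtain ⟨e, he, hef⟩ := exists_of_bH bd _ _ _ hf
        exact h5 (hcv k e (hzS e he) f hef g (hZ.le _ hg) h4)
      obtain ⟨u, hu, hu1⟩ := hZe k w hwZ hwc
      refine ⟨u, hu, fun f hf => ?_⟩
      rw [hu1 f hf, hw, Finsupp.filter_apply_pos _ _ hf]
  have huS : u ∈ chA S (i + 1) := fun e he => hZ.le _ (hu e he)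
  obtain ⟨y, hy, hy1⟩ := hS i (z - u) (sub_mem hzS huS) (fun f hf => by
    rw [map_sub, Finsupp.sub_apply]
    by_cases hfZ : f ∈ Z i
    · rw [hu1 f hfZ, sub_self]
    · rw [hz0 f ⟨hf, hfZ⟩, zero_sub, neg_eq_zero]
      refine bH_zero_of bd i u f fun e he => ?_
      by_contra h
      exact hfZ (hZ.face i e (hu e he) f hf h))
  refine ⟨y.filter (fun e => e ∉ Z (i + 2)), fun e he => ?_, fun f hf => ?_⟩
  · have h1 : e ∉ Z (i + 2) := by
      by_contra h
      exact he (Finsupp.filter_apply_neg _ _ (fun h4 => h4 h))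
    rw [Finsupp.filter_apply_pos (fun e => e ∉ Z (i + 2)) y h1] at he
    exact ⟨hy e he, h1⟩
  · have h1 := hy1 f hf.1
    have h2 : y = y.filter (fun e => e ∈ Z (i + 2)) + y.filter (fun e => e ∉ Z (i + 2)) :=
      (Finsupp.filter_add_filter_not _ _).symm
    have h3 : bH bd (i + 1) (y.filter (fun e => e ∈ Z (i + 2))) f = 0 := by
      refine bH_zero_of bd _ _ f fun e he => ?_
      have h4 : e ∈ Z (i + 2) := by
        by_contra h
        exact he (Finsupp.filter_apply_neg _ _ h)
      by_contra h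
      exact hf.2 (hZ.face _ e h4 f hf.1 h)
    rw [h2, map_add, Finsupp.add_apply, h3, zero_add] at h1
    rw [h1, Finsupp.sub_apply]
    have h4 : u f = 0 := by
      by_contra h
      exact hf.2 (hu f h)
    rw [h4, sub_zero]

/-- the cells in all mirrors of `I` and in no mirror of `J` -/
def SM {B : Type} (mir : ∀ i, F i → Set B) (I J : Set B) : ∀ i, Set (F i) :=
  fun i => {e | I ⊆ mir i e ∧ Disjoint (mir i e) J}

section

variable {B : Type} {mir : ∀ i, F i → Set B}
  (hface : ∀ i (e : F (i + 1)) (f : F i), bd i e f ≠ 0 → mir (i + 1) e ⊆ mir i f)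

include hface

theorem cv_SM (I J : Set B) : Cv bd (SM mir I J) := by
  intro i e he f hf g hg hfg
  exact ⟨he.1.trans (hface _ e f hf), hg.2.mono_left (hface _ f g hfg)⟩

theorem cl_SM (I J : Set B) (b : B) : Cl bd (SM mir I J) (SM mir (insert b I) J) where
  le _ _ he := ⟨(Set.subset_insert _ _).trans he.1, he.2⟩
  face i e he f hf hef := ⟨he.1.trans (hface _ e f hef), hf.2⟩

/-- relative exactness for all `I`, `J` -/
theorem rex_SM (hdd : DD bd) (h0 : IsEmpty (F 0)) (p : Set B → Prop)
    (hp : ∀ s t, s ⊆ t → p t → p s)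
    (h : ∀ I, p I → REx bd (fun i => {e | I ⊆ mir i e})) (J : Finset B) :
    ∀ I : Set B, p (I ∪ J) → REx bd (SM mir I J) := by
  induction J using Finset.induction_on with
  | empty =>
    intro I hI
    have h1 : SM mir I ((∅ : Finset B) : Set B) = fun i => {e : F i | I ⊆ mir i e} := by
      funext i
      ext e
      simp [SM]
    rw [h1]
    exact h I (hp _ _ Set.subset_union_left hI)
  | insert b J hb ih =>
    intro I hI
    have h1 : SM mir I ((insert b J : Finset B) : Set B) =
        fun i => SM mir I J i \ SM mir (insert b I) J i := by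
      funext i
      ext e
      simp only [SM, Finset.coe_insert, Set.mem_ofPred_eq, Set.mem_sdiff,
        Set.insert_subset_iff, Set.disjoint_insert_right]
      tauto
    rw [h1]
    refine third hdd h0 (cv_SM hface I J) (cl_SM hface I J b) (ih I (hp _ _ ?_ hI))
      (ih (insert b I) (hp _ _ ?_ hI))
    · rw [Finset.coe_insert]
      exact Set.union_subset_union_right _ (Set.subset_insert _ _)
    · rw [Finset.coe_insert, Set.insert_union, Set.union_insert]

end

end

end Pool.Agent.U838.DV
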